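import Pool.Agent.Lib.MP_f84017_an.Main

/-!
For every `n ≥ 2` there is `δ < n` such that every `δ`-separated family of `n`-dimensional operator
spaces is countable. This answers Q1 in the negative (for every `n ≥ 2`).

Idea of the proof. Every `n`-dimensional operator space `E` has a basis `w` which is in John
position with respect to the operator Hilbert space `OH_n` (the map `OH_n → E` is completely
contractive and its inverse has cb-norm at most `√n`). If uncountably many spaces had pairwise
distances close to `n`, separability would give spaces `E_0, E_1, …` and coefficient matrices
`s_0, s_1, …` such that `s_i` has norm at most `1/√n` over `E_i` while each `E_j` with `j > i` has a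
compression `w^{ij}` which nearly norms `s_i`. Then `t_{ij} = √n ∑_a w^{ij}_a ⊗ s_{j,a}` is a
contraction. Choose `h < i < j` whose second and fourth moments (Gram matrices of the tuples, and
of the products `p_a^* Y p_b`) almost agree. The contraction property forces the Gram matrices to
be close to `1/n`, the left and right weights to be close to each other, and the matrix `M` of the
inner products of the operators `w_a^* Y w_b` to satisfy `n² ‖M‖₂² ≤ 1` up to a small error, while
`tr M ≥ 1` and `⟨M δ, δ⟩ ≥ 1` up to small errors give `n² ‖M‖₂² ≥ 2n/(n+1) > 1`.
-/

noncomputable section

namespace Pool.Agent.Results.MP_f84017_an.SeparatedCountable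

open Pool.Agent.Lib.MP_f84017_an

universe u

theorem result (n : ℕ) (hn : 2 ≤ n) : ∃ δ : ℝ, δ < n ∧
    ∀ S : Set (OpSpace.{u} n),
      (∀ A ∈ S, ∀ B ∈ S, A ≠ B → ENNReal.ofReal δ < dcb A B) → S.Countable :=
  separated_countable n hn

end Pool.Agent.Results.MP_f84017_an.SeparatedCountable
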